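import Pool.Agent.Q24.Rab.Iso

/-!
# MP_1730fe_al: the homeomorphism groups of the 3- and 4-regular rabbits

`Homeo(R_n)` is the universal group `U(Sym([n]), Aut(S))` of the `(n, ∞)`-biregular tree of
circles. Here `LegalTree n` is the type of all legally coloured `(n, ∞)`-biregular trees (for
`n ≥ 1` there is exactly one up to isomorphism) and `U T` is the universal group of `T`.

The group `(Z/3)²` embeds in `U(Sym([4]), Aut(S))` (rotate the three other circles at cut points
of a fixed circle), but not in `U(Sym([3]), Aut(S))`. Hence there is no injective homomorphism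
from the former group to the latter.
-/

set_option autoImplicit false

namespace Pool.Agent.Results.MP_1730fe_al.NoEmbedding

open Q24.Rab

theorem result :
    (∀ n : ℕ, Nonempty (LegalTree (n + 1))) ∧
    (∀ (n : ℕ) (S T : LegalTree (n + 1)), Q24.Rab.Iso S T) ∧
    ∀ (X : LegalTree 3) (Y : LegalTree 4), ¬ Embeds Y X := by
  refine ⟨fun n => ⟨W n⟩, fun n S T => ?_, ?_⟩
  · obtain ⟨e1, h1, h1'⟩ := exists_iso (n := n) S
    obtain ⟨e2, h2, h2'⟩ := exists_iso (n := n) T
    refine ⟨e1.symm.trans e2, fun u v => ?_, fun u => ?_⟩
    · have := h1 (e1.symm u) (e1.symm v)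
      rw [e1.apply_symm_apply, e1.apply_symm_apply] at this
      exact (h2 _ _).trans this.symm
    · have := h1' (e1.symm u)
      rw [e1.apply_symm_apply] at this
      exact (h2' _).trans this.symm
  · rintro X Y ⟨f, hf⟩
    obtain ⟨g, hg, hinj⟩ := exists_hom' Y
    let g' : Z3 × Z3 →* U Y := g.codRestrict (U Y) hg
    have hg' : Function.Injective g' := fun a b h => hinj (congrArg Subtype.val h)
    refine no_hom X ((U X).subtype.comp (f.comp g')) (fun a => (f (g' a)).2) ?_
    exact (U X).subtype_injective.comp (hf.comp hg')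

end Pool.Agent.Results.MP_1730fe_al.NoEmbedding
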